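import Pool.Agent.H89.HL.Final

set_option autoImplicit false

/-!
# The induction on the number of variables for general thresholds
-/

universe u

namespace Pool.Agent.H89.HL

open MvPolynomial Pool.Agent.W5h86.HC Pool.Agent.W5h86.HD Pool.Agent.W5h94.CU

lemma hasSec_mono {K : Type u} [Field K] [CharZero K] {N n n' : ℕ} {F : MvPolynomial (Fin N) K}
    (h : n' ≤ n) (hF : HasSec n F) : HasSec n' F := by
  obtain ⟨q, rfl⟩ := Nat.exists_eq_add_of_le h
  clear h
  induction q with
  | zero => exact hF
  | succ q ih => exact ih hF.pred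

section step

variable {K : Type u} [Field K] [CharZero K] {M : ℕ}

/-- **The closed members of the pencil**. -/
theorem closed_caseG {c : Cardinal.{u}} (hc : Cardinal.aleph0 ≤ c) (hK : Cardinal.mk K = c)
    {d j n n' : ℕ} (hj : 1 ≤ j) (hn : 5 ≤ n) (hn' : n' + 2 ≤ n)
    (ih : 1 < j → AffG c (d + 2) n' (j - 1) (M + 1))
    {G : MvPolynomial (Fin (M + 2)) K} (hG : IsHomogeneous G (d + 2))
    (hsec : HasSec n G) {t : ℕ} (ht : t + j + 1 = M + 2)
    {P : Ideal (MvPolynomial (Fin (M + 2)) K)} [P.IsPrime]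
    (hP : IsSub t (X 0) P) (hGP : G ∈ P) (hval : IsAlgebraic K (val P)) :
    pt P ∈ Rel G t (X 0) := by
  rcases Nat.lt_or_ge 1 j with h1 | h1
  · set π := minpoly K (val P) with hπ
    have hirr : Irreducible π := minpoly.irreducible hval.isIntegral
    have hfact : Fact (Irreducible π) := ⟨hirr⟩
    have hcz : CharZero (AdjoinRoot π) :=
      charZero_of_injective_algebraMap (algebraMap K (AdjoinRoot π)).injective
    have hsec' : HasSec n' (lsub K (fibMat (N := M) (AdjoinRoot.root π)) G) :=
      (hasSec_mono hn' hsec).closed hG _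
    obtain ⟨P', hP', hPP'⟩ := exists_over_closed π hP (minpoly.aeval K (val P))
    have h3 : (X 0 : MvPolynomial (Fin (M + 1)) (AdjoinRoot π)) = lform (Pi.single 0 1) :=
      (lform_single 0).symm
    have h4 := ih h1 (AdjoinRoot π) (mk_adjoinRoot hc hK π) _ (isHomogeneous_lsub _ hG) hsec' (Pi.single 0 1)
      (by simp) t (by omega) P' (by
        rw [← h3, ← lsub_fibMat_zero (K := K) (θ := AdjoinRoot.root π)]
        exact hP') (by
        rw [← hPP', Ideal.mem_comap] at hGP
        exact hGP)
    rw [← h3, ← lsub_fibMat_zero (K := K) (θ := AdjoinRoot.root π)] at h4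
    have h5 := pt_mem_of_pt_mem (isFib_fibMat (M := M) (hgen_adjoinRoot π)) (trdeg_adjoinRoot π)
      (F := G) hP' h4 (by
        intro Q' hQ' hGQ' P₂ hQP₂ hP₂ hno
        exfalso
        apply hno
        have hpi2Q : hom2 M π.natDegree π ∈
            Q'.comap (lsub K (fibMat (N := M) (AdjoinRoot.root π))) := by
          rw [Ideal.mem_comap, lsub_fibMat_hom2 le_rfl]
          have h6 : Polynomial.aeval (AdjoinRoot.root π) π = 0 := by
            rw [AdjoinRoot.aeval_eq, AdjoinRoot.mk_self]
          rw [h6, map_zero, zero_mul]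
          exact Q'.zero_mem
        have hprime := hP₂.prime
        exact exists_over_closed π hP₂ ((hom2_mem_iff hP₂ π).1 (hQP₂ hpi2Q)))
    rw [hPP'] at h5
    exact h5
  · have h2 : j = 1 := by omega
    subst h2
    have h3 : t = M := by omega
    subst h3
    exact closed_one hG (hasSec_mono hn hsec) hP hGP hval

/-- **The generic member of the pencil**. -/
theorem generic_caseG {c : Cardinal.{u}} (hc : Cardinal.aleph0 ≤ c) (hK : Cardinal.mk K = c)
    {d j n n' : ℕ} (hj : 1 ≤ j) (hn : 5 ≤ n) (hn' : n' + 2 ≤ n)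
    (ih : 1 < j → AffG c (d + 2) n' (j - 1) (M + 1))
    (ih' : AffG c (d + 2) n j (M + 1))
    {G : MvPolynomial (Fin (M + 2)) K} (hG : IsHomogeneous G (d + 2))
    {A : Matrix (Fin (M + 2)) (Fin n) K} {A' : Matrix (Fin n) (Fin (M + 2)) K}
    (hA : A' * A = 1) (hA1 : A 1 = 0) (hAs : Smooth (lsub K A G))
    {t : ℕ} (ht : t + j + 1 = M + 2) {P : Ideal (MvPolynomial (Fin (M + 2)) K)}
    (hP : IsSub t (X 0) P) (hGP : G ∈ P) : pt P ∈ Rel G t (X 0) := by
  have hprime := hP.prime
  by_cases hval : IsAlgebraic K (val P)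
  · exact closed_caseG hc hK hj hn hn' ih hG ⟨A, A', hA, hAs⟩ ht hP hGP hval
  · have hcz : CharZero (Kt K) :=
      charZero_of_injective_algebraMap (algebraMap K (Kt K)).injective
    have hsec' : HasSec n (lsub K (fibMat (N := M) (tt K)) G) :=
      hasSec_generic hG transcendental_tt hA hA1 hAs
    obtain ⟨t', P', ht', hP', hPP'⟩ := exists_over_generic hP hval
    subst ht'
    have h3 : (X 0 : MvPolynomial (Fin (M + 1)) (Kt K)) = lform (Pi.single 0 1) :=
      (lform_single 0).symm
    have h4 := ih' (Kt K) (mk_Kt hc hK) _ (isHomogeneous_lsub _ hG) hsec' (Pi.single 0 1)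
      (by simp) t' (by omega) P' (by
        rw [← h3, ← lsub_fibMat_zero (K := K) (θ := tt K)]
        exact hP') (by
        rw [← hPP', Ideal.mem_comap] at hGP
        exact hGP)
    rw [← h3, ← lsub_fibMat_zero (K := K) (θ := tt K)] at h4
    have hfib : IsFib (lsub K (fibMat (N := M) (tt K))) (X 0) :=
      isFib_fibMat (M := M) (θ := tt K) (hgen_Kt (K := K))
    have h5 := pt_mem_of_pt_mem hfib (trdeg_Kt (K := K))
      (F := G) hP' h4 (by
        intro Q' hQ' hGQ' P₂ hQP₂ hP₂ hno
        have hprime := hP₂.prime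
        have hGP₂ : G ∈ P₂ := hQP₂ hGQ'
        by_cases hval₂ : IsAlgebraic K (val P₂)
        · exact closed_caseG hc hK hj hn hn' ih hG ⟨A, A', hA, hAs⟩ ht hP₂ hGP₂ hval₂
        · exfalso
          apply hno
          obtain ⟨t'', P'', ht'', hP'', hPP''⟩ := exists_over_generic hP₂ hval₂
          have h6 : t'' = t' := by omega
          subst h6
          exact ⟨P'', hP'', hPP''⟩)
    rw [hPP'] at h5
    exact h5

end step

/-- **The induction.** -/
theorem affG_of_base {c : Cardinal.{u}} (hc : Cardinal.aleph0 ≤ c) {d i : ℕ} {ν : ℕ → ℕ}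
    (hν0 : 3 ≤ ν 0) (hν : ∀ j, ν j + 2 ≤ ν (j + 1))
    (hbase : ∀ j, 1 ≤ j → j ≤ i → AffG c (d + 2) (ν j) j (ν j)) :
    ∀ N j, 1 ≤ j → j ≤ i → AffG c (d + 2) (ν j) j N := by
  have hν5 : ∀ j, 1 ≤ j → 5 ≤ ν j := by
    have h1 : ∀ j, 3 ≤ ν j := by
      intro j
      induction j with
      | zero => exact hν0
      | succ j ih =>
        have := hν j
        omega
    intro j hj
    have h2 := hν (j - 1)
    have h3 := h1 (j - 1)
    have h4 : j - 1 + 1 = j := by omega
    rw [h4] at h2
    omega
  intro N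
  induction N with
  | zero =>
    intro j hj _ K _ _ _ F hF hsec
    have := le_of_hasSec hsec
    have := hν5 j hj
    omega
  | succ N ih =>
    intro j hj hji K _ _ hK F hF hsec r hr t ht P hP hFP
    have h5 := hν5 j hj
    have hle := le_of_hasSec hsec
    rcases Nat.eq_or_lt_of_le hle with heq | hlt
    · have h1 := hbase j hj hji
      have h2 : AffG c (d + 2) (ν j) j (N + 1) := by
        rw [← heq]
        exact h1
      exact h2 K hK F hF hsec r hr t ht P hP hFP
    · obtain ⟨M, rfl⟩ : ∃ M, N = M + 1 := ⟨N - 1, by omega⟩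
      obtain ⟨n, hn⟩ : ∃ n, ν j = n + 1 := ⟨ν j - 1, by omega⟩
      have hsec2 : HasSec (n + 1) F := by
        rw [← hn]
        exact hsec
      obtain ⟨g, g', hg, hg', hg0, A, A', hA, hA1, hAs⟩ :=
        hsec2.exists_good_coord hF (by omega) hr
      have hl : lsub K g (lform r) = X 0 := by
        rw [lsub_lform, ← lform_single]
        congr 1
        funext j
        have h1 := congrFun (congrFun hg' 0) j
        rw [Matrix.mul_apply, hg0] at h1
        simp only [Algebra.algebraMap_self, RingHom.id_apply]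
        rw [h1, Matrix.one_apply, Pi.single_apply]
        simp only [eq_comm]
      refine pt_mem_of_coord hg hg' ?_ hP hFP
      intro P' hP' hFP'
      rw [hl] at hP' ⊢
      have hνj := hν (j - 1)
      have hjj : j - 1 + 1 = j := by omega
      rw [hjj] at hνj
      have ih2 : AffG c (d + 2) (n + 1) j (M + 1) := by
        rw [← hn]
        exact ih j hj hji
      exact generic_caseG hc hK hj (by omega) (n' := ν (j - 1)) (by omega)
        (fun h1 => ih (j - 1) (by omega) (by omega)) ih2
        (isHomogeneous_lsub g hF) hA hA1 hAs ht hP' hFP'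

end Pool.Agent.H89.HL
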