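import Pool.Agent.H89.HL.L.W5h94_CU_Corank

set_option autoImplicit false

/-!
# Hypersurfaces with small singular locus have smooth linear sections
-/

universe u

namespace Pool.Agent.H89.HL

open MvPolynomial Pool.Agent.W5h86.HC Pool.Agent.W5h94.CU

/-- The constants of a derivation. -/
def consts {k L : Type u} [Field k] [Field L] [Algebra k L] (D : Derivation k L L) :
    IntermediateField k L where
  carrier := {y | D y = 0}
  mul_mem' := by
    intro a b ha hb
    simp only [Set.mem_ofPred_eq] at ha hb ⊢
    rw [D.leibniz, ha, hb, smul_zero, smul_zero, add_zero]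
  one_mem' := D.map_one_eq_zero
  add_mem' := by
    intro a b ha hb
    simp only [Set.mem_ofPred_eq] at ha hb ⊢
    rw [map_add, ha, hb, add_zero]
  zero_mem' := map_zero D
  algebraMap_mem' := fun r => D.map_algebraMap r
  inv_mem' := by
    intro a ha
    simp only [Set.mem_ofPred_eq] at ha ⊢
    by_cases h0 : a = 0
    · rw [h0, inv_zero, map_zero]
    · have h1 : D (a * a⁻¹) = 0 := by
        rw [mul_inv_cancel₀ h0]
        exact D.map_one_eq_zero
      rw [D.leibniz, ha, smul_zero, add_zero, smul_eq_mul] at h1
      exact (mul_eq_zero.1 h1).resolve_left h0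

lemma mem_consts {k L : Type u} [Field k] [Field L] [Algebra k L] {D : Derivation k L L} {y : L} :
    y ∈ consts D ↔ D y = 0 := Iff.rfl

/-- The derivation is linear over its constants. -/
def overConsts {k L : Type u} [Field k] [Field L] [Algebra k L] (D : Derivation k L L) :
    Derivation (consts D) L L where
  toFun := D
  map_add' := map_add D
  map_smul' := by
    intro a x
    have ha : D (a : L) = 0 := a.2
    change D ((a : L) * x) = (a : L) * D x
    rw [D.leibniz, ha, smul_zero, add_zero, smul_eq_mul]
  map_one_eq_zero' := D.map_one_eq_zero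
  leibniz' := D.leibniz

lemma deriv_eq_zero_of_isAlgebraic {k L : Type u} [Field k] [CharZero k] [Field L] [Algebra k L]
    (D : Derivation k L L) {y : L} (hy : IsAlgebraic (consts D) y) : D y = 0 := by
  have h0 : CharZero (consts D) :=
    charZero_of_injective_algebraMap (algebraMap k (consts D)).injective
  exact derivation_isAlgebraic (overConsts D) hy

/-- Derivations which kill the ratios of the forms `P l` at a singular point kill the ratios of the
coordinates. -/
theorem deriv_ratio {k L : Type u} [Field k] [CharZero k] [Field L] [Algebra k L] {N γ d E : ℕ}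
    {Q : MvPolynomial (Fin N) k} (hQ : IsHomogeneous Q (d + 1))
    {P : Fin γ → MvPolynomial (Fin N) k} (hP : ∀ l, IsHomogeneous (P l) (E + 1))
    (h : ∀ (L : Type u) [Field L] [Algebra k L] (x : Fin N → L), x ≠ 0 → aeval x Q = 0 →
      (∀ i, aeval x (pderiv i Q) = 0) → ∃ l, aeval x (P l) ≠ 0)
    {x : Fin N → L} (h0 : aeval x Q = 0) (hs : ∀ i, aeval x (pderiv i Q) = 0)
    {l₀ : Fin γ} (hl₀ : aeval x (P l₀) ≠ 0) (D : Derivation k L L)
    (hD : ∀ l, D (aeval x (P l) / aeval x (P l₀)) = 0) {i j : Fin N} (hj : x j ≠ 0) :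
    D (x i / x j) = 0 := by
  have hx : x ≠ 0 := fun h => hj (congrFun h j)
  set g := aeval x (P l₀) with hg
  set C := consts D with hC
  have key : ∀ i, IsAlgebraic C (x i ^ (E + 1) / g) := by
    intro i
    by_contra hcon
    have hm : x i ^ (E + 1) / g ≠ 0 := by
      intro h
      rw [h] at hcon
      exact hcon isAlgebraic_zero
    have hxi : x i ≠ 0 := by
      intro h
      rw [h] at hm
      simp at hm
    have hs' : Transcendental C (x i ^ (E + 1) / g)⁻¹ := by
      intro h
      exact hcon (by simpa using h.inv)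
    obtain ⟨V, _, _, ι, k', _, _, ρ, hι, ⟨s', hs1, hs2⟩, hsc⟩ := exists_place hs'
    obtain ⟨c, hc, x', hx', j0, hj0⟩ := hsc _ x hx
    let i1 : Algebra k V := ((algebraMap C V).comp (algebraMap k C)).toAlgebra
    have i2 : IsScalarTower k C V := IsScalarTower.of_algebraMap_eq fun x => rfl
    let i3 : Algebra k k' := ((algebraMap C k').comp (algebraMap k C)).toAlgebra
    have i4 : IsScalarTower k C k' := IsScalarTower.of_algebraMap_eq fun x => rfl
    let ιk : V →ₐ[k] L := { ι with
      commutes' := fun r => by
        change ι (algebraMap C V (algebraMap k C r)) = _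
        rw [ι.commutes]
        rfl }
    let ρk : V →ₐ[k] k' := { ρ with
      commutes' := fun r => by
        change ρ (algebraMap C V (algebraMap k C r)) = _
        rw [ρ.commutes]
        rfl }
    have hιk : ∀ y, ιk y = ι y := fun _ => rfl
    have hρk : ∀ y, ρk y = ρ y := fun _ => rfl
    have hxx : (fun i => ιk (x' i)) = fun i => c * x i := funext fun i => hx' i
    have e0 : aeval x' Q = 0 := by
      apply hι
      rw [← hιk, aeval_comp ιk, map_zero, hxx, aeval_smul_point hQ, h0, mul_zero]
    have e1 : ∀ i, aeval x' (pderiv i Q) = 0 := by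
      intro i
      apply hι
      rw [← hιk, aeval_comp ιk, map_zero, hxx, aeval_smul_point (isHomogeneous_pderiv hQ _), hs,
        mul_zero]
    have e2 : ∀ l, aeval x' (P l) =
        algebraMap C V ⟨aeval x (P l) / g, hD l⟩ * (s' * x' i ^ (E + 1)) := by
      intro l
      apply hι
      rw [← hιk, aeval_comp ιk, hxx, aeval_smul_point (hP l), map_mul, map_mul, map_pow,
        ι.commutes, hs1, hx']
      change _ = aeval x (P l) / g * _
      rw [mul_pow]
      field_simp
    have hbar : (fun j => ρk (x' j)) ≠ 0 := by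
      intro h
      have h3 := congrFun h j0
      simp only [hj0, map_one, Pi.zero_apply, one_ne_zero] at h3
    obtain ⟨l, hl⟩ := h k' (fun j => ρk (x' j)) hbar (by rw [← aeval_comp ρk, e0, map_zero])
      (fun i => by rw [← aeval_comp ρk, e1, map_zero])
    apply hl
    rw [← aeval_comp ρk, e2, hρk, map_mul, map_mul, hs2, zero_mul, mul_zero]
  have h2 : (x i / x j) ^ (E + 1) = (x i ^ (E + 1) / g) * (x j ^ (E + 1) / g)⁻¹ := by
    rw [div_pow]
    field_simp
  have h3 : IsAlgebraic C ((x i / x j) ^ (E + 1)) := by
    rw [h2]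
    exact (key i).mul (key j).inv
  exact deriv_eq_zero_of_isAlgebraic D (h3.of_pow (by omega))

section sec

variable {k : Type u} [Field k] {γ n : ℕ}

/-- The generic matrix of a linear section of codimension `γ`. -/
noncomputable def gmat (k : Type u) [Field k] (γ n : ℕ) :
    Matrix (Fin (γ + n)) (Fin n) (MvPolynomial (Fin (γ * n)) k) :=
  fun i j => Fin.addCases (fun a => X (finProdFinEquiv (a, j)))
    (fun b => if b = j then 1 else 0) i

lemma gmat_left (a : Fin γ) (j : Fin n) :
    gmat k γ n (Fin.castAdd n a) j = X (finProdFinEquiv (a, j)) := by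
  unfold gmat
  rw [Fin.addCases_left]

lemma gmat_right (b : Fin n) (j : Fin n) :
    gmat k γ n (Fin.natAdd γ b) j = if b = j then 1 else 0 := by
  unfold gmat
  rw [Fin.addCases_right]

/-- **The generic section is smooth.** -/
theorem smooth_gmat [CharZero k] {d E : ℕ} {Q : MvPolynomial (Fin (γ + n)) k}
    (hQ : IsHomogeneous Q (d + 1)) {P : Fin γ → MvPolynomial (Fin (γ + n)) k}
    (hP : ∀ l, IsHomogeneous (P l) (E + 1))
    (h : ∀ (L : Type u) [Field L] [Algebra k L] (x : Fin (γ + n) → L), x ≠ 0 → aeval x Q = 0 →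
      (∀ i, aeval x (pderiv i Q) = 0) → ∃ l, aeval x (P l) ≠ 0) :
    Smooth (lsub k ((gmat k γ n).map (algebraMap (MvPolynomial (Fin (γ * n)) k)
      (FractionRing (MvPolynomial (Fin (γ * n)) k)))) Q) := by
  classical
  set U := FractionRing (MvPolynomial (Fin (γ * n)) k) with hU
  rw [smooth_lsub_iff]
  intro L _ _ _ _ b hb h0
  by_contra hcon
  push Not at hcon
  set u : Fin γ → Fin n → L := fun a j =>
    algebraMap U L (algebraMap (MvPolynomial (Fin (γ * n)) k) U (X (finProdFinEquiv (a, j)))) with hu
  set x : Fin (γ + n) → L := fun i => ∑ j, algebraMap U L (((gmat k γ n).map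
    (algebraMap (MvPolynomial (Fin (γ * n)) k) U)) i j) * b j with hx
  have hm1 : ∀ a j, algebraMap U L (((gmat k γ n).map
    (algebraMap (MvPolynomial (Fin (γ * n)) k) U)) (Fin.castAdd n a) j) = u a j := by
    intro a j
    rw [Matrix.map_apply, gmat_left]
  have hm2 : ∀ b' j, algebraMap U L (((gmat k γ n).map
    (algebraMap (MvPolynomial (Fin (γ * n)) k) U)) (Fin.natAdd γ b') j) =
      if b' = j then 1 else 0 := by
    intro b' j
    rw [Matrix.map_apply, gmat_right]
    split_ifs
    · rw [map_one, map_one]
    · rw [map_zero, map_zero]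
  have hxa : ∀ a, x (Fin.castAdd n a) = ∑ j, u a j * b j := by
    intro a
    simp only [hx, hm1]
  have hxb : ∀ j, x (Fin.natAdd γ j) = b j := by
    intro j
    simp only [hx, hm2]
    simp
  have hc : ∀ j, ∑ a, u a j * aeval x (pderiv (Fin.castAdd n a) Q) +
      aeval x (pderiv (Fin.natAdd γ j) Q) = 0 := by
    intro j
    have h1 : ∑ i, algebraMap U L (((gmat k γ n).map
      (algebraMap (MvPolynomial (Fin (γ * n)) k) U)) i j) * aeval x (pderiv i Q) = 0 := hcon j
    rw [Fin.sum_univ_add] at h1
    simp only [hm1, hm2] at h1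
    rw [Finset.sum_eq_single_of_mem (f := fun i => (if i = j then (1 : L) else 0) * _) j
      (Finset.mem_univ j) (fun i _ hi => by simp only [if_neg hi, zero_mul])] at h1
    rw [if_pos rfl, one_mul] at h1
    exact h1
  have hD : ∀ (a : Fin γ) (l : Fin n), ∃ D : Derivation k L L, ∀ a' j, D (u a' j) =
      if a' = a ∧ j = l then 1 else 0 := by
    intro a l
    obtain ⟨D, hD⟩ := exists_derivation (k := k) (L := L) U (finProdFinEquiv (a, l))
    refine ⟨D, fun a' j => ?_⟩
    rw [hu, hD]
    simp only [EmbeddingLike.apply_eq_iff_eq, Prod.mk.injEq]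
  obtain ⟨l, hl⟩ := Function.ne_iff.1 hb
  have hbl : b l ≠ 0 := hl
  choose D hD using fun a => hD a l
  -- all the partial derivatives vanish
  have hga : ∀ a, aeval x (pderiv (Fin.castAdd n a) Q) = 0 := by
    intro a
    have h1 := derivation_aeval (D a) x Q
    rw [h0, map_zero, Fin.sum_univ_add] at h1
    have h2 : ∀ a', D a (x (Fin.castAdd n a')) =
        (∑ j, u a' j * D a (b j)) + (if a' = a then b l else 0) := by
      intro a'
      rw [hxa, map_sum]
      have h3 : ∀ j, D a (u a' j * b j) = u a' j * D a (b j) +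
          (if j = l then (if a' = a then b j else 0) else 0) := by
        intro j
        rw [(D a).leibniz, hD, smul_eq_mul, smul_eq_mul]
        congr 1
        by_cases h1 : j = l
        · by_cases h2 : a' = a
          · simp [h1, h2]
          · simp [h2]
        · simp [h1]
      rw [Finset.sum_congr rfl fun j _ => h3 j, Finset.sum_add_distrib, Finset.sum_ite_eq']
      simp
    have h4 : ∑ a', aeval x (pderiv (Fin.castAdd n a') Q) * D a (x (Fin.castAdd n a')) =
        (∑ j, D a (b j) * ∑ a', u a' j * aeval x (pderiv (Fin.castAdd n a') Q)) +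
          aeval x (pderiv (Fin.castAdd n a) Q) * b l := by
      rw [Finset.sum_congr rfl fun a' _ => by rw [h2 a', mul_add, Finset.mul_sum],
        Finset.sum_add_distrib, Finset.sum_comm]
      congr 1
      · refine Finset.sum_congr rfl fun j _ => ?_
        rw [Finset.mul_sum]
        refine Finset.sum_congr rfl fun a' _ => ?_
        ring
      · simp
    have h5 : ∑ j, aeval x (pderiv (Fin.natAdd γ j) Q) * D a (x (Fin.natAdd γ j)) =
        - ∑ j, D a (b j) * ∑ a', u a' j * aeval x (pderiv (Fin.castAdd n a') Q) := by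
      rw [← Finset.sum_neg_distrib]
      refine Finset.sum_congr rfl fun j _ => ?_
      rw [hxb]
      linear_combination (D a (b j)) * hc j
    rw [h4, h5] at h1
    have h6 : aeval x (pderiv (Fin.castAdd n a) Q) * b l = 0 := by linear_combination -h1
    exact (mul_eq_zero.1 h6).resolve_right hbl
  have hgs : ∀ i, aeval x (pderiv i Q) = 0 := by
    intro i
    refine Fin.addCases (fun a => hga a) (fun j => ?_) i
    have h1 := hc j
    rw [Finset.sum_eq_zero fun a _ => by rw [hga a, mul_zero], zero_add] at h1
    exact h1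
  have hx0 : x ≠ 0 := by
    intro h1
    apply hbl
    rw [← hxb, h1]
    rfl
  obtain ⟨l₀, hl₀⟩ := h L x hx0 h0 hgs
  -- a combination of the derivations which kills the ratios
  let M : Matrix (Fin γ) (Fin γ) L := fun l' a => D a (aeval x (P l') / aeval x (P l₀))
  have hM : M.det = 0 := by
    apply Matrix.det_eq_zero_of_row_eq_zero l₀
    intro a
    change D a (aeval x (P l₀) / aeval x (P l₀)) = 0
    rw [div_self hl₀]
    exact (D a).map_one_eq_zero
  obtain ⟨c, hc0, hMc⟩ := Matrix.exists_mulVec_eq_zero_iff.2 hM
  set D' : Derivation k L L := ∑ a, c a • D a with hD'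
  have hD'a : ∀ y, D' y = ∑ a, c a * D a y := by
    intro y
    have h1 := map_sum (Derivation.coeFnAddMonoidHom : Derivation k L L →+ (L → L))
      (fun a => c a • D a) Finset.univ
    have h2 := congrFun h1 y
    rw [Finset.sum_apply] at h2
    exact h2
  have hk : ∀ l', D' (aeval x (P l') / aeval x (P l₀)) = 0 := by
    intro l'
    rw [hD'a]
    have h1 := congrFun hMc l'
    rw [Matrix.mulVec, dotProduct] at h1
    rw [← h1.trans (Pi.zero_apply _)]
    refine Finset.sum_congr rfl fun a _ => mul_comm _ _
  have hr : ∀ i, D' (x i / b l) = 0 := by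
    intro i
    have h1 := deriv_ratio hQ hP h h0 hgs hl₀ D' hk (i := i) (j := Fin.natAdd γ l)
      (by rw [hxb]; exact hbl)
    rw [hxb] at h1
    exact h1
  apply hc0
  funext a
  have h1 : x (Fin.castAdd n a) / b l = ∑ j, u a j * (b j / b l) := by
    rw [hxa, Finset.sum_div]
    refine Finset.sum_congr rfl fun j _ => ?_
    rw [mul_div_assoc]
  have h2 := congrArg D' h1
  rw [hr, map_sum] at h2
  have h3 : ∀ j, D' (u a j * (b j / b l)) = if j = l then c a else 0 := by
    intro j
    have h4 := hr (Fin.natAdd γ j)
    rw [hxb] at h4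
    rw [D'.leibniz, h4, smul_zero, zero_add, smul_eq_mul, hD'a]
    have h5 : ∑ a', c a' * D a' (u a j) = if j = l then c a else 0 := by
      rw [Finset.sum_congr rfl fun a' _ => by rw [hD a' a j]]
      by_cases hj : j = l
      · simp [hj]
      · simp [hj]
    rw [h5]
    split_ifs with h6
    · rw [h6, div_self hbl, one_mul]
    · rw [mul_zero]
  rw [Finset.sum_congr rfl fun j _ => h3 j, Finset.sum_ite_eq'] at h2
  simpa using h2.symm

/-- **Linear sections of hypersurfaces with small singular locus.** If `γ` forms of the same positive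
degree have no common zero on the singular locus then there is a smooth linear section of
codimension `γ`. -/
theorem hasSec_of_forms [CharZero k] {d E : ℕ} {Q : MvPolynomial (Fin (γ + n)) k}
    (hQ : IsHomogeneous Q (d + 1)) {P : Fin γ → MvPolynomial (Fin (γ + n)) k}
    (hP : ∀ l, IsHomogeneous (P l) (E + 1))
    (h : ∀ (L : Type u) [Field L] [Algebra k L] (x : Fin (γ + n) → L), x ≠ 0 → aeval x Q = 0 →
      (∀ i, aeval x (pderiv i Q) = 0) → ∃ l, aeval x (P l) ≠ 0) : HasSec n Q := by
  obtain ⟨u, -, hu⟩ := exists_spec (gmat k γ n) (smooth_gmat hQ hP h) (h := 1) one_ne_zero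
  refine ⟨(gmat k γ n).map (aeval u), Matrix.of fun j i => if i = Fin.natAdd γ j then 1 else 0,
    ?_, hu⟩
  ext j j'
  rw [Matrix.mul_apply, Finset.sum_eq_single (Fin.natAdd γ j)]
  · rw [Matrix.of_apply, if_pos rfl, one_mul, Matrix.map_apply, gmat_right, Matrix.one_apply]
    split_ifs
    · exact map_one _
    · exact map_zero _
  · intro i _ hi
    rw [Matrix.of_apply, if_neg hi, zero_mul]
  · simp

end sec

end Pool.Agent.H89.HL
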