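import Pool.Agent.H89.HL.Unc

set_option autoImplicit false

/-!
# From the degree `d` to larger degrees
-/

universe u

namespace Pool.Agent.H89.HL

open MvPolynomial Pool.Agent.W5h86.HC Pool.Agent.W5h86.HD Pool.Agent.W5h94.CU

/-- The numbers of homogeneous coordinates, starting with the degree `d + 2`. -/
def bdd (d : ℕ) : ℕ → ℕ → ℕ
  | 0, i => 2 * i + 3
  | k + 1, i => (bdd d k i - 2) + ((bdd d k i - 2) + (d + k + 2)).choose (d + k + 2) + 1

lemma bdd_ge (d k i : ℕ) : 3 ≤ bdd d k i := by
  induction k with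
  | zero =>
    simp only [bdd]
    omega
  | succ k ih =>
    simp only [bdd]
    have h1 : 0 < (bdd d k i - 2 + (d + k + 2)).choose (d + k + 2) := Nat.choose_pos (by omega)
    omega

lemma bdd_succ (d k i : ℕ) : bdd d k i + 2 ≤ bdd d k (i + 1) := by
  induction k with
  | zero =>
    simp only [bdd]
    omega
  | succ k ih =>
    simp only [bdd]
    have h1 := bdd_ge d k i
    have h2 : (bdd d k i - 2 + (d + k + 2)).choose (d + k + 2) ≤
        (bdd d k (i + 1) - 2 + (d + k + 2)).choose (d + k + 2) := Nat.choose_le_choose _ (by omega)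
    omega

/-- The thresholds. -/
def nud (d k j : ℕ) : ℕ := if j = 0 then 3 else bdd d k j

lemma nud_zero (d k : ℕ) : nud d k 0 = 3 := rfl

lemma nud_pos {d k j : ℕ} (hj : 1 ≤ j) : nud d k j = bdd d k j := by
  unfold nud
  rw [if_neg (by omega)]

lemma nud_succ (d k j : ℕ) : nud d k j + 2 ≤ nud d k (j + 1) := by
  rw [nud_pos (j := j + 1) (by omega)]
  have h1 := bdd_succ d k j
  by_cases hj : j = 0
  · rw [hj, nud_zero]
    have h2 := bdd_ge d k 0
    rw [hj] at h1
    omega
  · rw [nud_pos (by omega)]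
    exact h1

/-- **The induction on the degree**, starting with an arbitrary degree. -/
theorem fibreData_chain {c : Cardinal.{u}} (hc : Cardinal.aleph0 ≤ c) {d i₀ : ℕ}
    (h : ∀ N j, 1 ≤ j → j ≤ i₀ → AffC c (d + 2) j N) (k : ℕ) :
    FibreData c (d + k + 2) i₀ (nud d k) := by
  induction k with
  | zero =>
    refine ⟨hc, nud_zero d 0, fun j => by have := nud_succ d 0 j; omega, fun j hj hji N => ?_⟩
    intro K _ _ hK F hF hsec r hr t ht P hP hFP
    refine h N j hj hji K hK F hF ?_ r hr t ht P hP hFP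
    rw [nud_pos hj] at hsec
    exact hsec
  | succ k ih =>
    refine ⟨hc, nud_zero _ _, fun j => by have := nud_succ d (k + 1) j; omega,
      fun j hj hji N => ?_⟩
    refine affG_of_base hc (d := d + k + 1) (i := i₀) (ν := nud d (k + 1)) le_rfl (nud_succ _ _)
      ?_ N j hj hji
    intro j' hj' hji'
    have h1 := bdd_ge d (k + 1) j'
    obtain ⟨M, hM⟩ : ∃ M, nud d (k + 1) j' = M + 1 :=
      ⟨nud d (k + 1) j' - 1, by rw [nud_pos hj']; omega⟩
    rw [hM]
    refine affG_base (d := d + k + 1) ih hj' hji' ?_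
    rw [← hM, nud_pos hj', nud_pos hj']
    exact Nat.lt_succ_self _

/-- **From the degree `d + 2` to the degree `d + k + 3`.** -/
theorem degree_chain {d i : ℕ}
    (h : ∀ j, 1 ≤ j → j ≤ i → ∀ G : MvPolynomial (Fin (2 * j + 3)) ℂ,
      G.IsHomogeneous (d + 2) → Smooth G → LinSpan j G)
    {K : Type} [Field K] [CharZero K] (hK : Cardinal.mk K = Cardinal.continuum) {N r k : ℕ}
    {F : MvPolynomial (Fin N) K} (hF : F.IsHomogeneous (d + k + 3)) (hs : Smooth F)
    (Λ : Submodule K (Fin N → K)) (hΛ : Module.finrank K Λ = r + 1)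
    (hΛF : ∀ x ∈ Λ, eval x F = 0) (hi : bdd d k i ≤ r + 2) : LinSpan i F := by
  have hd := fibreData_chain (c := Cardinal.continuum) Cardinal.aleph0_le_continuum
    (affC_of_base Cardinal.aleph0_le_continuum fun j h1 h2 => affC_base h1 (h j h1 h2)) k
  refine main_linSpan (d := d + k + 1) hd hK hF hs Λ hΛ hΛF le_rfl ?_
  have h1 := bdd_ge d k i
  unfold nud
  split_ifs <;> omega

end Pool.Agent.H89.HL
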