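import Pool.Agent.H89.HL.Fibre

set_option autoImplicit false

/-!
# The fibres have smooth linear sections of small codimension
-/

universe u

namespace Pool.Agent.H89.HL

open MvPolynomial Pool.Agent.W5h86.HC Pool.Agent.W5h94.CU

/-- `hasSec_of_forms` with an equation between the numbers of variables. -/
theorem hasSec_of_forms' {k : Type u} [Field k] [CharZero k] {p γ n d E : ℕ} (hp : p = γ + n)
    {Q : MvPolynomial (Fin p) k}
    (hQ : IsHomogeneous Q (d + 1)) {P : Fin γ → MvPolynomial (Fin p) k}
    (hP : ∀ l, IsHomogeneous (P l) (E + 1))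
    (h : ∀ (L : Type u) [Field L] [Algebra k L] (x : Fin p → L), x ≠ 0 → aeval x Q = 0 →
      (∀ i, aeval x (pderiv i Q) = 0) → ∃ l, aeval x (P l) ≠ 0) : HasSec n Q := by
  subst hp
  exact hasSec_of_forms hQ hP h

lemma map_lsub {K κ κ' : Type u} [Field K] [Field κ] [Field κ'] [Algebra K κ] [Algebra κ κ']
    [Algebra K κ'] [IsScalarTower K κ κ'] {N n : ℕ} (B : Matrix (Fin N) (Fin n) κ)
    (f : MvPolynomial (Fin N) K) :
    map (algebraMap κ κ') (lsub K B f) = lsub K (B.map (algebraMap κ κ')) f := by
  induction f using MvPolynomial.induction_on with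
  | C a =>
    rw [lsub_C, lsub_C, map_C, ← IsScalarTower.algebraMap_apply]
  | add p q hp hq => rw [map_add, map_add, map_add, hp, hq]
  | mul_X p i hp =>
    rw [map_mul, map_mul, map_mul, hp, lsub_X, lsub_X, map_sum]
    congr 1
    refine Finset.sum_congr rfl fun j _ => ?_
    rw [map_mul, map_C, map_X, Matrix.map_apply]

lemma Wm_map {L L' : Type u} [Field L] [Field L'] [Algebra L L'] {m e : ℕ} (w : ℕ → L)
    (i : Fin (m + e + 1)) (j : Fin (m + 1)) :
    Wm m e (fun i => algebraMap L L' (w i)) i j = algebraMap L L' (Wm m e w i j) := by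
  rw [Wm_apply, Wm_apply]
  split_ifs <;> simp

lemma Wm_map' {L L' : Type u} [Field L] [Field L'] [Algebra L L'] {m e : ℕ} (w : ℕ → L) :
    (Wm m e w).map (algebraMap L L') = Wm m e (fun i => algebraMap L L' (w i)) := by
  ext i j
  rw [Matrix.map_apply, Wm_map]

lemma wx_map {L L' : Type u} [Field L] [Field L'] [Algebra L L'] {m e : ℕ} (w : ℕ → L)
    (i : Fin (m + e + 1)) :
    wx m e (fun i => algebraMap L L' (w i)) i = algebraMap L L' (wx m e w i) := by
  unfold wx
  split_ifs <;> simp

lemma Qf_map {K L L' : Type u} [Field K] [Field L] [Field L'] [Algebra K L] [Algebra L L']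
    [Algebra K L'] [IsScalarTower K L L'] {m e : ℕ} (w : ℕ → L)
    (H : Fin (m + e + 1) → MvPolynomial (Fin (m + e + 1)) K) :
    Qf K (fun i => algebraMap L L' (w i)) H = map (algebraMap L L') (Qf K w H) := by
  unfold Qf
  rw [map_sum]
  refine Finset.sum_congr rfl fun i _ => ?_
  rw [map_mul, map_C, map_lsub, Wm_map', wx_map]

/-- **The fibres have smooth linear sections.** -/
theorem corankD {K L : Type u} [Field K] [CharZero K] [Field L] [Algebra K L] {m e δ d : ℕ}
    {F : MvPolynomial (Fin (m + e + 1)) K} (hF : IsHomogeneous F (d + 2)) (hs : Smooth F)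
    (hy : F ∈ Ideal.span {f | ∃ i : Fin (m + e + 1), i.val ≤ e ∧ f = X i})
    (w : ℕ → L) (k0 : ℕ) (hk0 : k0 ≤ e) (hw : w k0 = 1) (T : Fin δ → ℕ) (hT : ∀ l, T l ≤ e)
    (hTi : AlgebraicIndependent K fun l => w (T l)) : FibreD (d + 1) m e 0 δ F w := by
  classical
  obtain ⟨H, hH, hH0, hFH⟩ := exists_HD hF hy
  have hH0' : ∀ i : Fin (m + e + 1), ¬ i.val ≤ e → H i = 0 := fun i hi => hH0 i (by omega)
  have hcz : CharZero L := charZero_of (K := K)
  have hQ : IsHomogeneous (Qf K w H) (d + 1) :=
    IsHomogeneous.sum _ _ _ fun i _ => (isHomogeneous_lsub _ (hH i)).C_mul _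
  refine ⟨Qf K w H, lsub_eq w hH0' hFH, hQ, fun n hn => ?_⟩
  have hTinj : Function.Injective T := by
    intro l l' h
    exact hTi.injective (by simp only [h])
  have hTk : ∀ l, T l ≠ k0 := by
    intro l h
    have h1 := hTi.transcendental l
    simp only [h, hw] at h1
    exact h1 isAlgebraic_one
  set R := Finset.univ.filter fun k : Fin (m + e + 1) => k.val ≤ e ∧ k.val ≠ k0 ∧
    ∀ l, T l ≠ k.val with hR
  have hRc : R.card + δ ≤ e := by
    have := card_rest (N := m + e + 1) hk0 hT hTinj hTk
    rw [← hR] at this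
    exact this
  obtain ⟨q, hq⟩ : ∃ q, m + 1 = R.card + (n + q) := ⟨m + 1 - R.card - n, by omega⟩
  have key : HasSec (n + q) (Qf K w H) := by
    refine hasSec_of_forms' hq hQ (E := d)
      (P := fun l => lsub K (Wm m e w) (pderiv ((R.equivFin.symm l : R) : Fin (m + e + 1)) F))
      (fun l => isHomogeneous_lsub _ (isHomogeneous_pderiv hF _)) ?_
    intro L' _ _ v hv hv0 hvs
    by_contra hcon
    push Not at hcon
    let i1 : Algebra K L' := ((algebraMap L L').comp (algebraMap K L)).toAlgebra
    have i2 : IsScalarTower K L L' := IsScalarTower.of_algebraMap_eq fun x => rfl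
    set w' : ℕ → L' := fun i => algebraMap L L' (w i) with hw'
    set x : Fin (m + e + 1) → L' := fun i => ∑ j, Wm m e w' i j * v j with hx
    have hx' : (fun i => ∑ j, algebraMap L L' (Wm m e w i j) * v j) = x := by
      funext i
      simp only [hx, hw', Wm_map]
    have hall := all_pderiv (L := L') hH0' hFH w' k0 hk0 (by rw [hw']; simp only [hw, map_one])
      T hT ((AlgebraicIndependent.map' hTi (f := IsScalarTower.toAlgHom K L L')
        (algebraMap L L').injective)) (v := v) (x := x)
      (by rw [Qf_map, aeval_map_algebraMap]; exact hv0)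
      (fun j => by rw [Qf_map, pderiv_map, aeval_map_algebraMap]; exact hvs j) (fun i => rfl)
      (by
        intro k h1 h2 h3
        have hkR : k ∈ R := Finset.mem_filter.2 ⟨Finset.mem_univ _, h1, h2, h3⟩
        have h4 := hcon (R.equivFin ⟨k, hkR⟩)
        rw [Equiv.symm_apply_apply, aeval_lsub, hx'] at h4
        exact h4)
    have hF0 : aeval x F = 0 := by
      rw [← hx', ← aeval_lsub, lsub_eq w hH0' hFH, map_mul, hv0, mul_zero]
    have hx0 : x ≠ 0 := by
      obtain ⟨j, hj⟩ := Function.ne_iff.1 hv
      intro h0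
      by_cases hj0 : j = 0
      · have h1 := congrFun h0 ⟨k0, by omega⟩
        simp only [hx] at h1
        rw [Finset.sum_eq_single 0, Wm_zero, wx, if_pos hk0, hw'] at h1
        · simp only [hw, map_one, one_mul, Pi.zero_apply] at h1
          rw [hj0] at hj
          exact hj h1
        · intro j' _ hj'
          rw [Wm_ne w' hk0 hj', zero_mul]
        · simp
      · have hj1 : 0 < j.val := Nat.pos_of_ne_zero fun h => hj0 (Fin.ext h)
        have h1 := congrFun h0 ⟨j.val + e, by omega⟩
        simp only [hx] at h1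
        rw [Finset.sum_eq_single j] at h1
        · rw [Wm_apply, if_neg (by simp only; omega), if_pos rfl, one_mul] at h1
          exact hj h1
        · intro j' _ hj'
          rw [Wm_apply, if_neg (by simp only; omega), if_neg, zero_mul]
          intro h2
          apply hj'
          apply Fin.ext
          simp only at h2
          omega
        · simp
    obtain ⟨i, hi⟩ := hs L' x hx0 hF0
    exact hi (hall i)
  have hpred : ∀ q n, HasSec (n + q) (Qf K w H) → HasSec n (Qf K w H) := by
    intro q
    induction q with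
    | zero => exact fun n h => h
    | succ q ih => exact fun n h => ih n h.pred
  exact hpred q n key

end Pool.Agent.H89.HL
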