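import Pool.Agent.H89.HL.Cond

set_option autoImplicit false

/-!
# The fibres of the projection of a smooth hypersurface from a linear subspace
-/

universe u

namespace Pool.Agent.H89.HL

open MvPolynomial Pool.Agent.W5h86.HC Pool.Agent.W5h94.CU

variable {K : Type u} [Field K] {m e : ℕ}

/-- Decomposition of the forms which vanish on the linear subspace. -/
lemma exists_HD {N D : ℕ} {F : MvPolynomial (Fin N) K} (hF : IsHomogeneous F (D + 1))
    (hy : F ∈ Ideal.span {f | ∃ i : Fin N, i.val ≤ e ∧ f = X i}) :
    ∃ H : Fin N → MvPolynomial (Fin N) K, (∀ i, IsHomogeneous (H i) D) ∧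
      (∀ i, e < i.val → H i = 0) ∧ F = ∑ i, X i * H i := by
  classical
  have key : ∃ H : Fin N → MvPolynomial (Fin N) K,
      (∀ i, e < i.val → H i = 0) ∧ F = ∑ i, X i * H i := by
    refine Submodule.span_induction (p := fun F _ => ∃ H : Fin N → MvPolynomial (Fin N) K,
      (∀ i, e < i.val → H i = 0) ∧ F = ∑ i, X i * H i) ?_ ?_ ?_ ?_ hy
    · rintro _ ⟨i, hi, rfl⟩
      refine ⟨Pi.single i 1, ?_, ?_⟩
      · intro k hk
        rw [Pi.single_eq_of_ne]
        rintro rfl
        omega
      · rw [Finset.sum_eq_single i]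
        · rw [Pi.single_eq_same, mul_one]
        · intro k _ hk
          rw [Pi.single_eq_of_ne hk, mul_zero]
        · simp
    · exact ⟨0, fun _ _ => rfl, by simp⟩
    · rintro x y _ _ ⟨H, h1, h2⟩ ⟨H', h1', h2'⟩
      refine ⟨H + H', ?_, ?_⟩
      · intro i hi
        rw [Pi.add_apply, h1 i hi, h1' i hi, add_zero]
      · rw [h2, h2', ← Finset.sum_add_distrib]
        refine Finset.sum_congr rfl fun i _ => ?_
        rw [Pi.add_apply, mul_add]
    · rintro a x _ ⟨H, h1, h2⟩
      refine ⟨fun i => a * H i, ?_, ?_⟩
      · intro i hi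
        simp only [h1 i hi, mul_zero]
      · rw [h2, smul_eq_mul, Finset.mul_sum]
        refine Finset.sum_congr rfl fun i _ => ?_
        ring
  obtain ⟨H, h1, h2⟩ := key
  refine ⟨fun i => homogeneousComponent D (H i), fun i => homogeneousComponent_isHomogeneous _ _,
    ?_, ?_⟩
  · intro i hi
    simp only [h1 i hi, map_zero]
  · have h3 : homogeneousComponent (D + 1) F = F := by
      rw [homogeneousComponent_of_mem hF, if_pos rfl]
    rw [← h3]
    conv_lhs => rw [h2]
    rw [map_sum]
    refine Finset.sum_congr rfl fun i _ => ?_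
    rw [add_comm D 1]
    exact homogeneousComponent_mul_of_isHomogeneous (isHomogeneous_X K i) D

/-- The partial derivatives of the form at the points of the fibre. -/
lemma aeval_pderiv_F {L : Type u} [Field L] [Algebra K L] {w : ℕ → L}
    {F : MvPolynomial (Fin (m + e + 1)) K}
    {H : Fin (m + e + 1) → MvPolynomial (Fin (m + e + 1)) K}
    (h1 : ∀ i : Fin (m + e + 1), ¬ i.val ≤ e → H i = 0) (h2 : F = ∑ i, X i * H i)
    {v : Fin (m + 1) → L} {x : Fin (m + e + 1) → L}
    (hx : ∀ i, x i = ∑ j, Wm m e w i j * v j) (k : Fin (m + e + 1)) :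
    aeval x (pderiv k F) = aeval x (H k) +
      ∑ i, wx m e w i * v 0 * aeval x (pderiv k (H i)) := by
  classical
  have hxe : ∀ i : Fin (m + e + 1), i.val ≤ e → x i = wx m e w i * v 0 := by
    intro i hi
    rw [hx, Finset.sum_eq_single 0, Wm_zero]
    · intro j _ hj
      rw [Wm_ne w hi hj, zero_mul]
    · simp
  rw [h2, map_sum, map_sum]
  have h3 : ∀ i, aeval x (pderiv k (X i * H i)) = (if i = k then aeval x (H i) else 0) +
      wx m e w i * v 0 * aeval x (pderiv k (H i)) := by
    intro i
    rw [pderiv_mul, map_add, map_mul, map_mul, aeval_X]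
    congr 1
    · by_cases hik : i = k
      · rw [if_pos hik, hik, pderiv_X_self, map_one, one_mul]
      · rw [if_neg hik, pderiv_X_of_ne hik, map_zero, zero_mul]
    · by_cases hi : i.val ≤ e
      · rw [hxe i hi]
      · rw [h1 i hi, map_zero, map_zero, mul_zero, mul_zero]
  rw [Finset.sum_congr rfl fun i _ => h3 i, Finset.sum_add_distrib,
    Finset.sum_ite_eq' Finset.univ k]
  simp

/-- **At a singular point of the fibre all partial derivatives of the form vanish if those with the
indices outside of `k0` and `T` do.** -/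
theorem all_pderiv {L : Type u} [CharZero K] [Field L] [Algebra K L] {δ : ℕ}
    {F : MvPolynomial (Fin (m + e + 1)) K}
    {H : Fin (m + e + 1) → MvPolynomial (Fin (m + e + 1)) K}
    (h1 : ∀ i : Fin (m + e + 1), ¬ i.val ≤ e → H i = 0) (h2 : F = ∑ i, X i * H i)
    (w : ℕ → L) (k0 : ℕ) (hk0 : k0 ≤ e) (hw : w k0 = 1) (T : Fin δ → ℕ) (hT : ∀ l, T l ≤ e)
    (hTi : AlgebraicIndependent K fun l => w (T l))
    {v : Fin (m + 1) → L} (hv0 : aeval v (Qf K w H) = 0)
    (hv : ∀ j, aeval v (pderiv j (Qf K w H)) = 0) {x : Fin (m + e + 1) → L}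
    (hx : ∀ i, x i = ∑ j, Wm m e w i j * v j)
    (hR : ∀ k : Fin (m + e + 1), k.val ≤ e → k.val ≠ k0 → (∀ l, T l ≠ k.val) →
      aeval x (pderiv k F) = 0) :
    ∀ k, aeval x (pderiv k F) = 0 := by
  classical
  have hTinj : Function.Injective T := by
    intro l l' h
    exact hTi.injective (by simp only [h])
  -- indices greater than `e`
  have hbig : ∀ k : Fin (m + e + 1), ¬ k.val ≤ e → aeval x (pderiv k F) = 0 := by
    intro k hk
    rw [aeval_pderiv_F h1 h2 hx, h1 k hk, map_zero, zero_add]
    have h3 : k.val - e < m + 1 := by omega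
    have h4 := hv ⟨k.val - e, h3⟩
    rw [aeval_pderiv_Qf hx] at h4
    have h5 : ∀ i, ∑ i', Wm m e w i' ⟨k.val - e, h3⟩ * aeval x (pderiv i' (H i)) =
        aeval x (pderiv k (H i)) := by
      intro i
      rw [Finset.sum_eq_single k]
      · rw [Wm_apply, if_neg hk, if_pos (by simp only; omega), one_mul]
      · intro i' _ hi'
        rw [Wm_apply]
        by_cases hi : i'.val ≤ e
        · rw [if_pos hi, if_neg, zero_mul]
          intro h6
          have h7 := congrArg Fin.val h6
          simp at h7
          omega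
        · rw [if_neg hi, if_neg, zero_mul]
          intro h6
          apply hi'
          apply Fin.ext
          simp only at h6
          omega
      · simp
    have h6 : ∑ i, wx m e w i * v 0 * aeval x (pderiv k (H i)) =
        v 0 * ∑ i, wx m e w i * ∑ i', Wm m e w i' ⟨k.val - e, h3⟩ *
          aeval x (pderiv i' (H i)) := by
      rw [Finset.mul_sum]
      refine Finset.sum_congr rfl fun i _ => ?_
      rw [h5]
      ring
    rw [h6, h4, mul_zero]
  -- indices in `T`
  have hTz : ∀ (l : Fin δ) (k : Fin (m + e + 1)), k.val = T l → aeval x (pderiv k F) = 0 := by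
    intro l k hk
    obtain ⟨D, hD⟩ := exists_der _ hTi l
    have h3 := key_D D h1 h2 hv0 hv hx
    rw [Finset.sum_eq_single k] at h3
    · have h4 : wx m e w k = w (T l) := by
        rw [wx, if_pos (by rw [hk]; exact hT l), hk]
      rw [h4, hD l, if_pos rfl, one_mul] at h3
      exact h3
    · intro k' _ hk'
      by_cases he : k'.val ≤ e
      · by_cases hk0' : k'.val = k0
        · have h4 : wx m e w k' = 1 := by
            rw [wx, if_pos he, hk0', hw]
          rw [h4, D.map_one_eq_zero, zero_mul]
        · by_cases hTk : ∃ l', T l' = k'.val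
          · obtain ⟨l', hl'⟩ := hTk
            have h4 : wx m e w k' = w (T l') := by
              rw [wx, if_pos he, hl']
            have h5 : l' ≠ l := by
              rintro rfl
              apply hk'
              apply Fin.ext
              omega
            rw [h4, hD l', if_neg h5, zero_mul]
          · push Not at hTk
            rw [hR k' he hk0' hTk, mul_zero]
      · rw [hbig k' he, mul_zero]
    · simp
  -- the index `k0`
  have hE : ∑ k, wx m e w k * aeval x (pderiv k F) = 0 := by
    have h3 := hv 0
    rw [aeval_pderiv_Qf hx] at h3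
    have h4 := hv0
    rw [aeval_Qf hx] at h4
    have h5 : ∀ k, wx m e w k * aeval x (pderiv k F) = wx m e w k * aeval x (H k) +
        v 0 * ∑ i, wx m e w i * (Wm m e w k 0 * aeval x (pderiv k (H i))) := by
      intro k
      rw [aeval_pderiv_F h1 h2 hx, mul_add, Wm_zero, Finset.mul_sum, Finset.mul_sum]
      congr 1
      refine Finset.sum_congr rfl fun i _ => ?_
      ring
    rw [Finset.sum_congr rfl fun k _ => h5 k, Finset.sum_add_distrib, h4, zero_add,
      ← Finset.mul_sum, Finset.sum_comm]
    have h6 : ∑ i, ∑ k, wx m e w i * (Wm m e w k 0 * aeval x (pderiv k (H i))) = 0 := by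
      rw [← h3]
      refine Finset.sum_congr rfl fun i _ => ?_
      rw [Finset.mul_sum]
    rw [h6, mul_zero]
  have hk0z : ∀ k : Fin (m + e + 1), k.val = k0 → aeval x (pderiv k F) = 0 := by
    intro k hk
    have h3 := hE
    rw [Finset.sum_eq_single k] at h3
    · have h4 : wx m e w k = 1 := by
        rw [wx, if_pos (by omega), hk, hw]
      rw [h4, one_mul] at h3
      exact h3
    · intro k' _ hk'
      by_cases he : k'.val ≤ e
      · have hk0' : k'.val ≠ k0 := by
          intro h4
          apply hk'
          apply Fin.ext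
          omega
        by_cases hTk : ∃ l', T l' = k'.val
        · obtain ⟨l', hl'⟩ := hTk
          rw [hTz l' k' hl'.symm, mul_zero]
        · push Not at hTk
          rw [hR k' he hk0' hTk, mul_zero]
      · rw [hbig k' he, mul_zero]
    · simp
  intro k
  by_cases he : k.val ≤ e
  · by_cases hk0' : k.val = k0
    · exact hk0z k hk0'
    · by_cases hTk : ∃ l', T l' = k.val
      · obtain ⟨l', hl'⟩ := hTk
        exact hTz l' k hl'.symm
      · push Not at hTk
        exact hR k he hk0' hTk
  · exact hbig k he

end Pool.Agent.H89.HL
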