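import Pool.Agent.H89.HL.Main
import Pool.Agent.H89.HL.L.W5h94_CU_Final2

set_option autoImplicit false

/-!
# Smooth hypersurfaces which contain a linear subspace
-/

universe u

namespace Pool.Agent.H89.HL

open MvPolynomial Pool.Agent.W5h86.HC Pool.Agent.W5h86.HD Pool.Agent.W5h94.CU

variable {K : Type u} [Field K] {m e : ℕ}

/-- The dimension of a linear subspace of a smooth hypersurface is at most half of the
dimension of the hypersurface. -/
lemma le_of_smoothD {d : ℕ} {F : MvPolynomial (Fin (m + e + 1)) K} (hF : IsHomogeneous F (d + 2)) (hs : Smooth F)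
    (hy : F ∈ Ideal.span {f | ∃ i : Fin (m + e + 1), i.val ≤ e ∧ f = X i}) : m ≤ e + 1 := by
  classical
  by_contra hcon
  obtain ⟨H, hH, hH0, hFH⟩ := exists_HD hF hy
  -- the restriction to the linear subspace
  let ρ : MvPolynomial (Fin (m + e + 1)) K →ₐ[K] MvPolynomial (Fin m) K :=
    aeval fun i => if h : i.val ≤ e then 0 else X ⟨i.val - e - 1, by omega⟩
  have hρ : ∀ f, constantCoeff f = 0 → constantCoeff (ρ f) = 0 := by
    intro f hf
    have h1 : (constantCoeff : MvPolynomial (Fin m) K →+* K).comp (ρ : _ →+* _) =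
        (constantCoeff : MvPolynomial (Fin (m + e + 1)) K →+* K) := by
      apply MvPolynomial.ringHom_ext
      · intro a
        rw [RingHom.comp_apply]
        change constantCoeff (ρ (C a)) = constantCoeff (C a)
        have h2 : ρ (C a) = C a := ρ.commutes a
        rw [h2, constantCoeff_C, constantCoeff_C]
      · intro i
        rw [RingHom.comp_apply]
        change constantCoeff (ρ (X i)) = _
        simp only [ρ, aeval_X, constantCoeff_X]
        split_ifs
        · exact map_zero _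
        · exact constantCoeff_X _ _
    rw [← hf]
    exact DFunLike.congr_fun h1 f
  obtain ⟨L, _, _, b, hb, hb0⟩ := exists_common_zero' (K := K) (s := e + 1) (c := m) (by omega)
    (fun k => ρ (H ⟨k.val, by omega⟩)) (fun k => hρ _ (by
      by_contra hne
      have h1 := (hH ⟨k.val, by omega⟩).coeff_eq_zero (d := 0) (by simp)
      exact hne h1))
  set x : Fin (m + e + 1) → L := fun i => if h : i.val ≤ e then 0 else b ⟨i.val - e - 1, by omega⟩
    with hx
  have hρx : ∀ f, aeval b (ρ f) = aeval x f := by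
    intro f
    have h1 : (aeval b : MvPolynomial (Fin m) K →ₐ[K] L).comp ρ = aeval x := by
      apply MvPolynomial.algHom_ext
      intro i
      rw [AlgHom.comp_apply, aeval_X]
      simp only [ρ, aeval_X, hx]
      split_ifs
      · exact map_zero _
      · exact aeval_X _ _
    exact DFunLike.congr_fun h1 f
  have hHx : ∀ i, aeval x (H i) = 0 := by
    intro i
    by_cases hi : i.val ≤ e
    · have h1 := hb0 ⟨i.val, by omega⟩
      rw [hρx] at h1
      exact h1
    · rw [hH0 i (by omega), map_zero]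
  have hx0 : ∀ i : Fin (m + e + 1), i.val ≤ e → x i = 0 := by
    intro i hi
    simp only [hx, dif_pos hi]
  have hxne : x ≠ 0 := by
    intro h0
    apply hb
    funext j
    have h1 := congrFun h0 ⟨j.val + e + 1, by omega⟩
    simp only [hx, Pi.zero_apply] at h1
    rw [dif_neg (by omega)] at h1
    rw [Pi.zero_apply, ← h1]
    congr 1
    apply Fin.ext
    simp only
    omega
  obtain ⟨j, hj⟩ := hs L x hxne (by
    rw [hFH, map_sum]
    refine Finset.sum_eq_zero fun i _ => ?_
    rw [map_mul, hHx, mul_zero])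
  apply hj
  rw [hFH, map_sum, map_sum]
  refine Finset.sum_eq_zero fun i _ => ?_
  rw [pderiv_mul, map_add, map_mul, map_mul, hHx, mul_zero, zero_add, aeval_X]
  by_cases hi : i.val ≤ e
  · rw [hx0 i hi, zero_mul]
  · rw [hH0 i (by omega), map_zero, map_zero, mul_zero]

/-- **Smooth hypersurfaces which contain a coordinate subspace.** -/
theorem main_coord [CharZero K] {c : Cardinal.{u}} {d i₀ : ℕ} {ν : ℕ → ℕ}
    (hd : FibreData c (d + 1) i₀ ν) (hK : Cardinal.mk K = c) {i : ℕ}
    {G : MvPolynomial (Fin (m + e + 1)) K}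
    (hG : IsHomogeneous G (d + 2)) (hs : Smooth G)
    (hy : G ∈ Ideal.span {f | ∃ k : Fin (m + e + 1), k.val ≤ e ∧ f = X k}) (hi0 : i ≤ i₀)
    (him : ν i ≤ m + 1)
    {t : ℕ} (ht : t + i = m + e) {P : Ideal (MvPolynomial (Fin (m + e + 1)) K)} (hP : IsSub t 1 P)
    (hGP : G ∈ P) : pt P ∈ Submodule.span ℚ {sect t G (cf K (m + e + 1) i)} ⊔ RatEq G t := by
  have hme := le_of_smoothD hG hs hy
  have hνi := hd.le i
  refine proj_mainD hd i e 0 m K hK G hG ?_ hi0 (by omega) (by omega) t ht P hP hGP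
  intro L _ _ w k0 hk0 hw δ T hT hTi
  exact corankD hG hs hy w k0 hk0 hw T hT hTi

/-- **Smooth hypersurfaces which contain a linear subspace**, any linear section. -/
theorem main_linSpan [CharZero K] {c : Cardinal.{u}} {d i₀ : ℕ} {ν : ℕ → ℕ}
    (hd : FibreData c (d + 1) i₀ ν) (hK : Cardinal.mk K = c) {N r i : ℕ}
    {F : MvPolynomial (Fin N) K} (hF : IsHomogeneous F (d + 2)) (hs : Smooth F)
    (Λ : Submodule K (Fin N → K)) (hΛ : Module.finrank K Λ = r + 1)
    (hΛF : ∀ x ∈ Λ, eval x F = 0) (hi0 : i ≤ i₀) (hi : ν i ≤ r + 2) : LinSpan i F := by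
  have hνi := hd.le i
  intro ℓ hℓ _ t ht P hP hFP
  obtain ⟨A, A', hA, hAF, -⟩ := exists_matrix Λ hΛ hΛF
  obtain ⟨e, g, g', hN, hg, hg', hgF, -⟩ := exists_adapted (i := 0) (ℓ := Fin.elim0) hs A A' hA hAF
    (linearIndependent_empty_type) (fun k => k.elim0)
  subst hN
  have hsg : Smooth (lsub K g F) := hs.coord hg hg'
  have hme : r + 1 ≤ e + 1 := le_of_smoothD (m := r + 1) (isHomogeneous_lsub g hF) hsg hgF
  set ℓ₀ : Fin i → Fin (r + 1 + e + 1) → K := fun k =>
    Matrix.vecMul (cf K (r + 1 + e + 1) i k) g' with hℓ₀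
  have hℓ₀g : (fun k => Matrix.vecMul (ℓ₀ k) g) = cf K (r + 1 + e + 1) i := by
    funext k
    rw [hℓ₀, Matrix.vecMul_vecMul, hg', Matrix.vecMul_one]
  have hcf : LinearIndependent K (cf K (r + 1 + e + 1) i) := by
    have h1 : cf K (r + 1 + e + 1) i = fun k => Pi.single (Fin.castLE (by omega) k) (1 : K) := by
      funext k c
      unfold cf
      rw [Pi.single_apply]
      congr 1
      rw [eq_iff_iff, Fin.ext_iff, Fin.val_castLE]
    rw [h1]
    exact (Pi.linearIndependent_single_one (Fin (r + 1 + e + 1)) K).comp _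
      (Fin.castLE_injective _)
  have hℓ₀li : LinearIndependent K ℓ₀ := by
    apply LinearIndependent.of_comp (Matrix.vecMulLinear g)
    have h1 : (Matrix.vecMulLinear g) ∘ ℓ₀ = cf K (r + 1 + e + 1) i := hℓ₀g
    rw [h1]
    exact hcf
  have h1 : pt P ∈ Submodule.span ℚ {sect t F ℓ₀} ⊔ RatEq F t := by
    refine pt_mem_coord hg hg' (fun P₁ hP₁ hFP₁ => ?_) hP hFP
    rw [hℓ₀g]
    exact main_coord hd hK (m := r + 1) (e := e) (isHomogeneous_lsub g hF) hsg hgF
      hi0 (by omega) (by omega) hP₁ hFP₁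
  have h2 : sect t F ℓ₀ - sect t F ℓ ∈ RatEq F t :=
    sect_ratEq (e := d) hF hs (by omega) ht hℓ₀li hℓ
  have h3 : Submodule.span ℚ {sect t F ℓ₀} ⊔ RatEq F t ≤
      Submodule.span ℚ {sect t F ℓ} ⊔ RatEq F t := by
    refine sup_le ?_ le_sup_right
    rw [Submodule.span_le, Set.singleton_subset_iff, SetLike.mem_coe]
    have h4 := Submodule.add_mem _ (Submodule.mem_sup_right (S := Submodule.span ℚ {sect t F ℓ}) h2)
      (Submodule.mem_sup_left (T := RatEq F t) (Submodule.mem_span_singleton_self (sect t F ℓ)))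
    rw [sub_add_cancel] at h4
    exact h4
  exact h3 h1

end Pool.Agent.H89.HL
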