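import Pool.Agent.H89.HL.AffG

set_option autoImplicit false

/-!
# Linear subspaces of hypersurfaces over algebraically closed fields
-/

universe u

namespace Pool.Agent.H89.HL

open MvPolynomial Pool.Agent.W5h86.HC Pool.Agent.W5h94.CU

/-- Bihomogeneous polynomials of total degree `D`. -/
def BH {K : Type u} [Field K] {a q : ℕ} (D : ℕ)
    (G : MvPolynomial (Fin a) (MvPolynomial (Fin q) K)) : Prop :=
  ∀ μ m, coeff m (coeff μ G) ≠ 0 → μ.degree + m.degree = D

section BH

variable {K : Type u} [Field K] {a q : ℕ}

lemma BH.zero {D : ℕ} : BH D (0 : MvPolynomial (Fin a) (MvPolynomial (Fin q) K)) := by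
  intro μ m h
  rw [coeff_zero, coeff_zero] at h
  exact absurd rfl h

lemma BH.add {D : ℕ} {G G' : MvPolynomial (Fin a) (MvPolynomial (Fin q) K)} (h : BH D G)
    (h' : BH D G') : BH D (G + G') := by
  intro μ m hm
  rw [coeff_add, coeff_add] at hm
  by_cases h0 : coeff m (coeff μ G) = 0
  · rw [h0, zero_add] at hm
    exact h' μ m hm
  · exact h μ m h0

lemma BH.sum {ι : Type*} {s : Finset ι} {D : ℕ}
    {G : ι → MvPolynomial (Fin a) (MvPolynomial (Fin q) K)} (h : ∀ i ∈ s, BH D (G i)) :
    BH D (∑ i ∈ s, G i) := by
  classical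
  induction s using Finset.induction_on with
  | empty => exact BH.zero
  | insert i s hi ih =>
    rw [Finset.sum_insert hi]
    exact (h i (Finset.mem_insert_self _ _)).add
      (ih fun j hj => h j (Finset.mem_insert_of_mem hj))

lemma BH.mul {D D' : ℕ} {G G' : MvPolynomial (Fin a) (MvPolynomial (Fin q) K)} (h : BH D G)
    (h' : BH D' G') : BH (D + D') (G * G') := by
  classical
  intro μ m hm
  rw [coeff_mul, coeff_sum] at hm
  obtain ⟨x, hx, hx0⟩ := Finset.exists_ne_zero_of_sum_ne_zero hm
  rw [coeff_mul] at hx0
  obtain ⟨y, hy, hy0⟩ := Finset.exists_ne_zero_of_sum_ne_zero hx0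
  have h1 := h x.1 y.1 (left_ne_zero_of_mul hy0)
  have h2 := h' x.2 y.2 (right_ne_zero_of_mul hy0)
  have hx' : x.1 + x.2 = μ := Finset.HasAntidiagonal.mem_antidiagonal.1 hx
  have hy' : y.1 + y.2 = m := Finset.HasAntidiagonal.mem_antidiagonal.1 hy
  rw [← hx', ← hy', map_add, map_add]
  omega

lemma BH.one : BH 0 (1 : MvPolynomial (Fin a) (MvPolynomial (Fin q) K)) := by
  classical
  intro μ m hm
  rw [coeff_one] at hm
  split_ifs at hm with h1
  · rw [coeff_one] at hm
    split_ifs at hm with h2
    · rw [← h1, ← h2]
      simp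
    · exact absurd rfl hm
  · rw [coeff_zero] at hm
    exact absurd rfl hm

lemma BH.prod {ι : Type*} {s : Finset ι} {D : ι → ℕ}
    {G : ι → MvPolynomial (Fin a) (MvPolynomial (Fin q) K)} (h : ∀ i ∈ s, BH (D i) (G i)) :
    BH (∑ i ∈ s, D i) (∏ i ∈ s, G i) := by
  classical
  induction s using Finset.induction_on with
  | empty => exact BH.one
  | insert i s hi ih =>
    rw [Finset.prod_insert hi, Finset.sum_insert hi]
    exact (h i (Finset.mem_insert_self _ _)).mul
      (ih fun j hj => h j (Finset.mem_insert_of_mem hj))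

lemma BH.pow {D : ℕ} {G : MvPolynomial (Fin a) (MvPolynomial (Fin q) K)} (h : BH D G) (n : ℕ) :
    BH (n * D) (G ^ n) := by
  induction n with
  | zero =>
    rw [pow_zero, zero_mul]
    exact BH.one
  | succ n ih =>
    rw [pow_succ, Nat.add_mul, one_mul]
    exact ih.mul h

lemma BH.X (j : Fin a) : BH 1 (X j : MvPolynomial (Fin a) (MvPolynomial (Fin q) K)) := by
  classical
  intro μ m hm
  rw [coeff_X] at hm
  split_ifs at hm with h1
  · rw [coeff_one] at hm
    split_ifs at hm with h2
    · rw [← h1, ← h2]
      simp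
    · exact absurd rfl hm
  · rw [coeff_zero] at hm
    exact absurd rfl hm

lemma BH.CC (c : K) : BH 0 (C (C c) : MvPolynomial (Fin a) (MvPolynomial (Fin q) K)) := by
  classical
  intro μ m hm
  rw [coeff_C] at hm
  split_ifs at hm with h1
  · rw [coeff_C] at hm
    split_ifs at hm with h2
    · rw [← h1, ← h2]
      simp
    · exact absurd rfl hm
  · rw [coeff_zero] at hm
    exact absurd rfl hm

lemma BH.CX (l : Fin q) : BH 1 (C (MvPolynomial.X l) :
    MvPolynomial (Fin a) (MvPolynomial (Fin q) K)) := by
  classical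
  intro μ m hm
  rw [coeff_C] at hm
  split_ifs at hm with h1
  · rw [coeff_X] at hm
    split_ifs at hm with h2
    · rw [← h1, ← h2]
      simp
    · exact absurd rfl hm
  · rw [coeff_zero] at hm
    exact absurd rfl hm

/-- The generic point of the sum of two linear subspaces. -/
noncomputable def gpt {N : ℕ} (B : Matrix (Fin N) (Fin a) K) (W : Matrix (Fin N) (Fin q) K)
    (i : Fin N) : MvPolynomial (Fin a) (MvPolynomial (Fin q) K) :=
  ∑ j, C (C (B i j)) * MvPolynomial.X j + ∑ l, C (C (W i l)) * C (MvPolynomial.X l)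

lemma BH.gpt {N : ℕ} (B : Matrix (Fin N) (Fin a) K) (W : Matrix (Fin N) (Fin q) K)
    (i : Fin N) : BH 1 (gpt B W i) := by
  refine BH.add (BH.sum fun j _ => ?_) (BH.sum fun l _ => ?_)
  · have h := (BH.CC (q := q) (B i j)).mul (BH.X j)
    rw [zero_add] at h
    exact h
  · have h := (BH.CC (a := a) (W i l)).mul (BH.CX l)
    rw [zero_add] at h
    exact h

lemma BH.aeval {N D : ℕ} {F : MvPolynomial (Fin N) K} (hF : IsHomogeneous F D)
    (B : Matrix (Fin N) (Fin a) K) (W : Matrix (Fin N) (Fin q) K) :
    BH D (MvPolynomial.aeval (HL.gpt B W) F) := by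
  rw [aeval_def, eval₂_eq]
  refine BH.sum fun m hm => ?_
  have h1 : m.degree = D := by
    by_contra h
    rw [mem_support_iff] at hm
    exact hm (hF.coeff_eq_zero h)
  have h2 : BH (∑ i ∈ m.support, m i * 1) (∏ i ∈ m.support, HL.gpt B W i ^ m i) :=
    BH.prod fun i _ => (BH.gpt B W i).pow (m i)
  have h3 : ∑ i ∈ m.support, m i * 1 = D := by
    rw [← h1]
    simp only [mul_one]
    rfl
  rw [h3] at h2
  have h4 := (BH.CC (a := a) (q := q) (coeff m F)).mul h2
  rw [zero_add] at h4
  exact h4

end BH

/-- evaluation of the generic point -/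
lemma eval_gpt {K : Type u} [Field K] {a q N : ℕ} (B : Matrix (Fin N) (Fin a) K)
    (W : Matrix (Fin N) (Fin q) K) (y : Fin a → K) (z : Fin q → K) (F : MvPolynomial (Fin N) K) :
    eval y (map (eval z) (aeval (gpt B W) F)) = eval (B.mulVec y + W.mulVec z) F := by
  let φ : MvPolynomial (Fin N) K →+* K :=
    (eval y).comp ((map (eval z)).comp (aeval (gpt B W) :
      MvPolynomial (Fin N) K →ₐ[K] MvPolynomial (Fin a) (MvPolynomial (Fin q) K)).toRingHom)
  have h : φ = eval (B.mulVec y + W.mulVec z) := by
    apply MvPolynomial.ringHom_ext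
    · intro c
      change eval y (map (eval z) (aeval (gpt B W) (C c))) = _
      rw [← algebraMap_eq, AlgHom.commutes]
      change eval y (map (eval z) (C (C c))) = _
      rw [map_C, eval_C, eval_C, algebraMap_eq, eval_C]
    · intro i
      change eval y (map (eval z) (aeval (gpt B W) (X i))) = _
      rw [aeval_X, gpt]
      simp only [map_add, map_sum, map_mul, map_C, map_X, eval_C, eval_X, Pi.add_apply,
        Matrix.mulVec, dotProduct]
  exact DFunLike.congr_fun h F

/-- Fewer than `c` polynomials without constant term in `c` variables over an algebraically closed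
field have a common zero different from the origin. -/
theorem exists_zero_closed {K : Type u} [Field K] [IsAlgClosed K] {c : ℕ} {ι : Type}
    [Fintype ι] (hc : Fintype.card ι < c) (f : ι → MvPolynomial (Fin c) K)
    (hf : ∀ i, constantCoeff (f i) = 0) : ∃ b : Fin c → K, b ≠ 0 ∧ ∀ i, eval b (f i) = 0 := by
  classical
  obtain ⟨L, _, _, b, hb, hbf⟩ := exists_common_zero' hc
    (fun i => f ((Fintype.equivFin ι).symm i)) (fun i => hf _)
  obtain ⟨j, hj⟩ := Function.ne_iff.1 hb
  by_contra hcon
  push Not at hcon
  set I : Ideal (MvPolynomial (Fin c) K) := Ideal.span (Set.range f) with hI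
  have h1 : (X j : MvPolynomial (Fin c) K) ∈ vanishingIdeal K (zeroLocus K I) := by
    rw [mem_vanishingIdeal_iff]
    intro x hx
    rw [aeval_X]
    by_contra hxj
    obtain ⟨i, hi⟩ := hcon x (fun h => hxj (by rw [h]; rfl))
    apply hi
    have h2 := hx (f i) (Ideal.subset_span (Set.mem_range_self i))
    rw [aeval_eq_eval] at h2
    exact h2
  rw [vanishingIdeal_zeroLocus_eq_radical] at h1
  obtain ⟨n, hn⟩ := h1
  have h3 : I ≤ RingHom.ker (aeval b : MvPolynomial (Fin c) K →ₐ[K] L) := by
    rw [hI, Ideal.span_le]
    rintro _ ⟨i, rfl⟩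
    rw [SetLike.mem_coe, RingHom.mem_ker]
    have h4 := hbf (Fintype.equivFin ι i)
    rw [Equiv.symm_apply_apply] at h4
    exact h4
  have h4 := h3 hn
  rw [RingHom.mem_ker, map_pow, aeval_X] at h4
  exact hj (eq_zero_of_pow_eq_zero h4)

/-- An extended linear subspace: one step. -/
theorem extend_linear {K : Type u} [Field K] [IsAlgClosed K] {N D a q : ℕ}
    {F : MvPolynomial (Fin N) K} (hF : IsHomogeneous F (D + 1)) (B : Matrix (Fin N) (Fin a) K)
    (W : Matrix (Fin N) (Fin q) K) (hB : ∀ y, eval (B.mulVec y) F = 0)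
    (hq : (a + D).choose D < q) :
    ∃ z : Fin q → K, z ≠ 0 ∧ ∀ y, eval (B.mulVec y + W.mulVec z) F = 0 := by
  classical
  set G := aeval (gpt B W) F with hG
  have hBH : BH (D + 1) G := BH.aeval hF B W
  have hinf : Infinite K := IsAlgClosed.instInfinite
  -- the constant coefficients vanish
  have h0 : ∀ μ, constantCoeff (coeff μ G) = 0 := by
    have h1 : map (eval (0 : Fin q → K)) G = 0 := by
      apply MvPolynomial.funext
      intro y
      rw [map_zero, hG, eval_gpt, Matrix.mulVec_zero, add_zero]
      exact hB y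
    intro μ
    have h2 := congrArg (coeff μ) h1
    rw [coeff_map, coeff_zero, eval_zero] at h2
    exact h2
  -- the conditions
  let f : Sym (Fin (a + 1)) D → MvPolynomial (Fin q) K := fun s =>
    coeff (Finsupp.equivFunOnFinite.symm fun j : Fin a => s.1.count (Fin.castSucc j)) G
  have hcard : Fintype.card (Sym (Fin (a + 1)) D) < q := by
    rw [Sym.card_sym_eq_choose, Fintype.card_fin]
    have h1 : a + 1 + D - 1 = a + D := by omega
    rw [h1]
    exact hq
  obtain ⟨z, hz, hzf⟩ := exists_zero_closed hcard f fun s => h0 _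
  refine ⟨z, hz, fun y => ?_⟩
  have hmap : map (eval z) G = 0 := by
    ext μ
    rw [coeff_map, coeff_zero]
    by_cases hμ : μ.degree ≤ D
    · -- the coefficient is one of the conditions
      let M : Multiset (Fin (a + 1)) := (∑ j : Fin a, Multiset.replicate (μ j) (Fin.castSucc j)) +
        Multiset.replicate (D - μ.degree) (Fin.last a)
      have hcount : ∀ j : Fin a, M.count (Fin.castSucc j) = μ j := by
        intro j
        simp only [M]
        rw [Multiset.count_add, Multiset.count_sum', Multiset.count_replicate,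
          if_neg (Fin.castSucc_lt_last j).ne', add_zero, Finset.sum_eq_single j]
        · rw [Multiset.count_replicate, if_pos rfl]
        · intro j' _ hj'
          rw [Multiset.count_replicate, if_neg]
          intro h
          exact hj' (Fin.castSucc_injective _ h)
        · simp
      have hMc : M.card = D := by
        simp only [M]
        rw [Multiset.card_add, Multiset.card_replicate, Multiset.card_sum]
        have h1 : ∑ j, (Multiset.replicate (μ j) (Fin.castSucc j)).card = μ.degree := by
          rw [Finsupp.degree_eq_sum]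
          refine Finset.sum_congr rfl fun j _ => Multiset.card_replicate _ _
        rw [h1]
        omega
      have h1 : eval z (coeff (Finsupp.equivFunOnFinite.symm fun j : Fin a =>
        M.count (Fin.castSucc j)) G) = 0 := hzf ⟨M, hMc⟩
      have h2 : (Finsupp.equivFunOnFinite.symm fun j : Fin a => M.count (Fin.castSucc j)) = μ := by
        ext j
        exact hcount j
      rw [h2] at h1
      exact h1
    · -- the coefficient is zero
      have h1 : coeff μ G = 0 := by
        ext m
        rw [coeff_zero]
        by_contra hm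
        have h2 := hBH μ m hm
        have h3 : m.degree = 0 := by omega
        have h4 : m = 0 := by
          rwa [Finsupp.degree_eq_zero_iff] at h3
        rw [h4] at hm
        exact hm (h0 μ)
      rw [h1, map_zero]
  rw [← eval_gpt, ← hG, hmap, map_zero]

/-- One step, for linearly independent families. -/
theorem extend_family {K : Type u} [Field K] [IsAlgClosed K] {N D a : ℕ}
    {F : MvPolynomial (Fin N) K} (hF : IsHomogeneous F (D + 1)) {v : Fin a → Fin N → K}
    (hv : LinearIndependent K v) (hvF : ∀ y : Fin a → K, eval (∑ j, y j • v j) F = 0)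
    (hN : a + (a + D).choose D < N) :
    ∃ v' : Fin (a + 1) → Fin N → K, LinearIndependent K v' ∧
      ∀ y : Fin (a + 1) → K, eval (∑ j, y j • v' j) F = 0 := by
  classical
  set S := Submodule.span K (Set.range v) with hS
  have hSr : Module.finrank K S = a := by
    rw [hS, finrank_span_eq_card hv, Fintype.card_fin]
  obtain ⟨T, hT⟩ := Submodule.exists_isCompl S
  have hTr : Module.finrank K T = N - a := by
    have h1 := Submodule.finrank_add_eq_of_isCompl hT
    rw [Module.finrank_fin_fun] at h1
    omega
  let w := Module.finBasisOfFinrankEq K T hTr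
  obtain ⟨z, hz, hzF⟩ := extend_linear hF (Matrix.of fun i j => v j i)
    (Matrix.of fun i l => (w l : Fin N → K) i) (by
      intro y
      have h1 : (Matrix.of fun i j => v j i).mulVec y = ∑ j, y j • v j := by
        funext i
        simp only [Matrix.mulVec, dotProduct, Matrix.of_apply, Finset.sum_apply, Pi.smul_apply,
          smul_eq_mul]
        exact Finset.sum_congr rfl fun j _ => mul_comm _ _
      rw [h1]
      exact hvF y) (q := N - a) (by omega)
  set u : Fin N → K := ((∑ l, z l • w l : T) : Fin N → K) with hu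
  have huW : (Matrix.of fun i l => (w l : Fin N → K) i).mulVec z = u := by
    funext i
    rw [hu]
    simp only [Matrix.mulVec, dotProduct, Matrix.of_apply, Submodule.coe_sum, Submodule.coe_smul,
      Finset.sum_apply, Pi.smul_apply, smul_eq_mul]
    exact Finset.sum_congr rfl fun j _ => mul_comm _ _
  have huS : u ∉ S := by
    intro h
    have h1 : u ∈ S ⊓ T := ⟨h, Subtype.coe_prop _⟩
    rw [hT.inf_eq_bot, Submodule.mem_bot, hu, ZeroMemClass.coe_eq_zero] at h1
    apply hz
    funext l
    exact (Fintype.linearIndependent_iff.1 w.linearIndependent) z h1 l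
  refine ⟨Fin.cons u v, ?_, ?_⟩
  · rw [linearIndependent_finCons]
    exact ⟨hv, huS⟩
  · intro y
    rw [Fin.sum_univ_succ]
    simp only [Fin.cons_zero, Fin.cons_succ]
    by_cases h0 : y 0 = 0
    · rw [h0, zero_smul, zero_add]
      exact hvF _
    · have h1 := hzF fun j => (y 0)⁻¹ * y j.succ
      have h2 : (Matrix.of fun i j => v j i).mulVec (fun j => (y 0)⁻¹ * y j.succ) +
          (Matrix.of fun i l => (w l : Fin N → K) i).mulVec z =
          fun i => (y 0)⁻¹ * (y 0 • u + ∑ j : Fin a, y j.succ • v j) i := by
        rw [huW]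
        funext i
        simp only [Matrix.mulVec, dotProduct, Matrix.of_apply, Finset.sum_apply, Pi.smul_apply,
          Pi.add_apply, smul_eq_mul]
        rw [mul_add, Finset.mul_sum, inv_mul_cancel_left₀ h0, add_comm]
        congr 1
        refine Finset.sum_congr rfl fun j _ => ?_
        ring
      rw [h2, ← aeval_eq_eval, aeval_smul_point hF] at h1
      have h3 := (mul_eq_zero.1 h1).resolve_left (pow_ne_zero _ (inv_ne_zero h0))
      rw [aeval_eq_eval] at h3
      exact h3

/-- **Linear subspaces of hypersurfaces over algebraically closed fields.** -/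
theorem exists_family {K : Type u} [Field K] [IsAlgClosed K] {N D : ℕ}
    {F : MvPolynomial (Fin N) K} (hF : IsHomogeneous F (D + 1)) :
    ∀ a, (∀ b, b + 1 = a → b + (b + D).choose D < N) →
      ∃ v : Fin a → Fin N → K, LinearIndependent K v ∧
        ∀ y : Fin a → K, eval (∑ j, y j • v j) F = 0 := by
  intro a
  induction a with
  | zero =>
    intro _
    refine ⟨Fin.elim0, linearIndependent_empty_type, fun y => ?_⟩
    rw [Finset.univ_eq_empty, Finset.sum_empty, eval_zero]
    rw [constantCoeff_eq]
    exact hF.coeff_eq_zero (by simp)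
  | succ a ih =>
    intro h
    have h1 := h a rfl
    obtain ⟨v, hv, hvF⟩ := ih (by
      intro b hb
      have h2 : (b + D).choose D ≤ (a + D).choose D := Nat.choose_le_choose D (by omega)
      omega)
    exact extend_family hF hv hvF h1

/-- **Linear subspaces of hypersurfaces over algebraically closed fields.** -/
theorem exists_subspace {K : Type u} [Field K] [IsAlgClosed K] {N D a : ℕ}
    {F : MvPolynomial (Fin N) K} (hF : IsHomogeneous F (D + 1))
    (hN : a + (a + D).choose D < N) :
    ∃ Λ : Submodule K (Fin N → K), Module.finrank K Λ = a + 1 ∧ ∀ x ∈ Λ, eval x F = 0 := by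
  obtain ⟨v, hv, hvF⟩ := exists_family hF (a + 1) (by
    intro b hb
    have h1 : b = a := by omega
    rw [h1]
    exact hN)
  refine ⟨Submodule.span K (Set.range v), ?_, ?_⟩
  · rw [finrank_span_eq_card hv, Fintype.card_fin]
  · intro x hx
    obtain ⟨y, rfl⟩ := (Submodule.mem_span_range_iff_exists_fun K).1 hx
    exact hvF y

end Pool.Agent.H89.HL
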