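import Pool.Agent.H89.HL.LinSub

set_option autoImplicit false

/-!
# Smooth hypersurfaces of arbitrary degree which contain a linear subspace
-/

universe u

namespace Pool.Agent.H89.HL

open MvPolynomial Pool.Agent.W5h86.HC Pool.Agent.W5h86.HD Pool.Agent.W5h94.CU

/-- The affine statement follows from the projective one for the same hypersurface. -/
theorem rel_of_linSpan {d j M n : ℕ} (hj : 1 ≤ j) (hjM : j ≤ M) {K : Type u} [Field K] [CharZero K]
    {F : MvPolynomial (Fin (M + 1)) K} (hF : IsHomogeneous F (d + 2)) (h : LinSpan j F)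
    (hsec : HasSec (n + 1 + 2) F) (r : Fin (M + 1) → K) (hr : r ≠ 0) (t : ℕ)
    (ht : t + j + 1 = M + 1) (P : Ideal (MvPolynomial (Fin (M + 1)) K))
    (hP : IsSub t (lform r) P) (hFP : F ∈ P) : pt P ∈ Rel F t (lform r) := by
  obtain ⟨i, rfl⟩ : ∃ i, j = i + 1 := ⟨j - 1, by omega⟩
  obtain ⟨B, B', q, h1, h2, h3⟩ := exists_param hr
  have hsec' : HasSec (n + 1) (lsub K B F) := by
    refine hsec.hyperplane hF B r ?_
    intro w hw
    refine ⟨B'.mulVec w, ?_⟩
    rw [Matrix.mulVec_mulVec, h2, Matrix.sub_mulVec, Matrix.one_mulVec, Matrix.vecMulVec_mulVec]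
    have h5 : r ⬝ᵥ w = 0 := hw
    rw [h5]
    simp
  obtain ⟨ℓ, hℓ, hℓ0, hFℓ⟩ := exists_forms hr h3 (ne_zero_of_hasSec hsec') (i := i) hjM
  rw [← hℓ0] at hP ⊢
  exact pt_mem_rel h hℓ hFℓ ht hP hFP

lemma mk_algebraicClosure {c : Cardinal.{u}} (hc : Cardinal.aleph0 ≤ c) {K : Type u} [Field K]
    (hK : Cardinal.mk K = c) : Cardinal.mk (AlgebraicClosure K) = c := by
  apply le_antisymm
  · have h2 := Algebra.IsAlgebraic.cardinalMk_le_max K (AlgebraicClosure K)
    rw [hK, max_eq_left hc] at h2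
    exact h2
  · rw [← hK]
    exact Cardinal.mk_le_of_injective (algebraMap K (AlgebraicClosure K)).injective

section

attribute [local instance] MvPolynomial.algebraMvPolynomial

/-- The base of the induction: smooth hypersurfaces contain linear subspaces over the algebraic
closure. -/
theorem affG_base {c : Cardinal.{u}} {d i₀ : ℕ} {ν : ℕ → ℕ}
    (hd : FibreData c (d + 1) i₀ ν) {j : ℕ} (hj : 1 ≤ j) (hji : j ≤ i₀) {M : ℕ}
    (hM : ν j - 2 + (ν j - 2 + (d + 1)).choose (d + 1) < M + 1) :
    AffG c (d + 2) (M + 1) j (M + 1) := by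
  intro K _ _ hK F hF hsec r hr t ht P hP hFP
  have hνj := hd.le j
  have hcz : CharZero (AlgebraicClosure K) :=
    charZero_of_injective_algebraMap (algebraMap K (AlgebraicClosure K)).injective
  obtain ⟨P', hP', hcomap⟩ := exists_over_isSub (Ω := AlgebraicClosure K) hP
  have hl : algebraMap (MvPolynomial (Fin (M + 1)) K)
      (MvPolynomial (Fin (M + 1)) (AlgebraicClosure K))
      (lform r) = lform (fun k => algebraMap K (AlgebraicClosure K) (r k)) := by
    rw [algebraMap_eq_map]
    unfold lform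
    rw [map_sum]
    refine Finset.sum_congr rfl fun k _ => ?_
    rw [map_mul, map_C, map_X]
  have hFh : IsHomogeneous (algebraMap (MvPolynomial (Fin (M + 1)) K)
      (MvPolynomial (Fin (M + 1)) (AlgebraicClosure K)) F) (d + 2) := hF.map _
  have hFs : Smooth (algebraMap (MvPolynomial (Fin (M + 1)) K)
      (MvPolynomial (Fin (M + 1)) (AlgebraicClosure K)) F) := smooth_map (smooth_of_hasSec hsec)
  obtain ⟨Λ, hΛ, hΛF⟩ := exists_subspace (D := d + 1) hFh hM
  have hlin := main_linSpan hd (mk_algebraicClosure hd.inf hK) hFh hFs Λ hΛ hΛF hji (by omega)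
  have h1 : pt P' ∈ Rel (algebraMap (MvPolynomial (Fin (M + 1)) K)
      (MvPolynomial (Fin (M + 1)) (AlgebraicClosure K)) F) t
      (algebraMap (MvPolynomial (Fin (M + 1)) K)
        (MvPolynomial (Fin (M + 1)) (AlgebraicClosure K)) (lform r)) := by
    rw [hl]
    rw [hl] at hP'
    refine rel_of_linSpan hj (by omega) hFh hlin (n := 0)
      (hasSec_mono (n := M + 1) (by omega) (hasSec_self hFs)) _ ?_ t (by omega) P' hP' ?_
    · intro h2
      apply hr
      funext k
      have h3 := congrFun h2 k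
      rw [Pi.zero_apply, map_eq_zero] at h3
      exact h3
    · rw [← hcomap, Ideal.mem_comap] at hFP
      exact hFP
  have h2 := pt_mem_of_closure (K := K) (Ω := AlgebraicClosure K) hP' h1
  rw [hcomap] at h2
  exact h2

end

/-- The numbers of homogeneous coordinates: `bd 0 i = 2 i + 3` for quadrics, and
`bd (k + 1) i = a + (a + k + 2 choose k + 2) + 1`, `a = bd k i - 2`, for hypersurfaces of degree
`k + 3`. -/
def bd : ℕ → ℕ → ℕ
  | 0, i => 2 * i + 3
  | k + 1, i => (bd k i - 2) + ((bd k i - 2) + (k + 2)).choose (k + 2) + 1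

lemma bd_ge (k i : ℕ) : 3 ≤ bd k i := by
  induction k with
  | zero =>
    simp only [bd]
    omega
  | succ k ih =>
    simp only [bd]
    have h1 : 0 < (bd k i - 2 + (k + 2)).choose (k + 2) := Nat.choose_pos (by omega)
    omega

lemma bd_succ (k i : ℕ) : bd k i + 2 ≤ bd k (i + 1) := by
  induction k with
  | zero =>
    simp only [bd]
    omega
  | succ k ih =>
    simp only [bd]
    have h1 := bd_ge k i
    have h2 : (bd k i - 2 + (k + 2)).choose (k + 2) ≤
        (bd k (i + 1) - 2 + (k + 2)).choose (k + 2) := Nat.choose_le_choose _ (by omega)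
    omega

/-- The thresholds. -/
def nu (k j : ℕ) : ℕ := if j = 0 then 3 else bd k j

lemma nu_zero (k : ℕ) : nu k 0 = 3 := rfl

lemma nu_pos {k j : ℕ} (hj : 1 ≤ j) : nu k j = bd k j := by
  unfold nu
  rw [if_neg (by omega)]

lemma nu_succ (k j : ℕ) : nu k j + 2 ≤ nu k (j + 1) := by
  rw [nu_pos (j := j + 1) (by omega)]
  have h1 := bd_succ k j
  by_cases hj : j = 0
  · rw [hj, nu_zero]
    have h2 := bd_ge k 0
    rw [hj] at h1
    omega
  · rw [nu_pos (by omega)]
    exact h1

/-- **The induction on the degree.** -/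
theorem fibreData (k : ℕ) {c : Cardinal.{u}} (hc : Cardinal.aleph0 ≤ c) (i₀ : ℕ) :
    FibreData c (k + 2) i₀ (nu k) := by
  induction k with
  | zero =>
    refine ⟨hc, nu_zero 0, fun j => by have := nu_succ 0 j; omega, fun j hj _ N => ?_⟩
    intro K _ _ _ F hF hsec r hr t ht P hP hFP
    refine quad j hj N K F hF ?_ r hr t ht P hP hFP
    rw [nu_pos hj] at hsec
    exact hsec
  | succ k ih =>
    refine ⟨hc, nu_zero _, fun j => by have := nu_succ (k + 1) j; omega, fun j hj hji N => ?_⟩
    refine affG_of_base hc (d := k + 1) (i := i₀) (ν := nu (k + 1)) le_rfl (nu_succ _) ?_ N j hj hji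
    intro j' hj' hji'
    have h1 := bd_ge (k + 1) j'
    obtain ⟨M, hM⟩ : ∃ M, nu (k + 1) j' = M + 1 := ⟨nu (k + 1) j' - 1, by rw [nu_pos hj']; omega⟩
    rw [hM]
    refine affG_base (d := k + 1) ih hj' hji' ?_
    rw [← hM, nu_pos hj', nu_pos hj']
    exact Nat.lt_succ_self _

/-- **Smooth hypersurfaces which contain a linear subspace.** -/
theorem unconditional {K : Type u} [Field K] [CharZero K] {N r i k : ℕ}
    {F : MvPolynomial (Fin N) K} (hF : IsHomogeneous F (k + 3)) (hs : Smooth F)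
    (Λ : Submodule K (Fin N → K)) (hΛ : Module.finrank K Λ = r + 1)
    (hΛF : ∀ x ∈ Λ, eval x F = 0) (hi : bd k i ≤ r + 2) : LinSpan i F := by
  have hc : Cardinal.aleph0 ≤ Cardinal.mk K := Cardinal.infinite_iff.1 inferInstance
  refine main_linSpan (d := k + 1) (fibreData k hc i) rfl hF hs Λ hΛ hΛF le_rfl ?_
  have h1 := bd_ge k i
  unfold nu
  split_ifs <;> omega

end Pool.Agent.H89.HL
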